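import Pool.Agent.Lib_helper24.SapR.Stmts
import Pool.Agent.Lib_helper27.Count

/-! Rotation and reversal invariance for K1 (canonical root). -/

set_option autoImplicit false

namespace Pool.Agent.SapR.H58

open Finset Pool.Agent.Lib27

lemma lev_add (p q : ℤ × ℤ) : lev (p + q) = lev p + lev q := by
  simp only [lev, Prod.fst_add, Prod.snd_add]; ring

@[simp] lemma lev_zero : lev 0 = 0 := by simp [lev]

lemma lev_neg (p : ℤ × ℤ) : lev (-p) = - lev p := by
  simp only [lev, Prod.fst_neg, Prod.snd_neg]; ring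

lemma cnt_perm {l l' : List (ℤ × ℤ)} (h : l.Perm l') (k : ℤ) : cnt l k = cnt l' k :=
  h.countP_eq _

lemma cntI_perm {l l' : List (ℤ × ℤ)} (h : l.Perm l') (a b : ℤ) : cntI l a b = cntI l' a b :=
  h.countP_eq _

lemma cnt_shift (l : List (ℤ × ℤ)) (p : ℤ × ℤ) (k : ℤ) :
    cnt (l.map (· + p)) k = cnt l (k - lev p) := by
  unfold cnt
  rw [List.countP_map]
  apply List.countP_congr
  intro q _
  simp only [Function.comp, lev_add, decide_eq_true_eq]
  constructor <;> intro h <;> linarith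

lemma cntI_shift (l : List (ℤ × ℤ)) (p : ℤ × ℤ) (a b : ℤ) :
    cntI (l.map (· + p)) a b = cntI l (a - lev p) (b - lev p) := by
  unfold cntI
  rw [List.countP_map]
  apply List.countP_congr
  intro q _
  simp only [Function.comp, lev_add, decide_eq_true_eq]
  constructor <;> rintro ⟨h1, h2⟩ <;> constructor <;> linarith

lemma cut_perm {l l' : List (ℤ × ℤ)} (h : l.Perm l') (k : ℤ) : Cut l k ↔ Cut l' k := by
  unfold Cut
  rw [cnt_perm h, cnt_perm h, cnt_perm h]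

lemma cut_shift (l : List (ℤ × ℤ)) (p : ℤ × ℤ) (k : ℤ) :
    Cut (l.map (· + p)) k ↔ Cut l (k - lev p) := by
  unfold Cut
  rw [cnt_shift, cnt_shift, cnt_shift]
  have h1 : k - 1 - lev p = k - lev p - 1 := by ring
  have h2 : k + 1 - lev p = k - lev p + 1 := by ring
  rw [h1, h2]

lemma shortRuns_perm {l l' : List (ℤ × ℤ)} (h : l.Perm l') (r : ℕ) :
    ShortRuns r l ↔ ShortRuns r l' := by
  unfold ShortRuns
  simp only [cut_perm h, cntI_perm h]

lemma shortRuns_shift (l : List (ℤ × ℤ)) (p : ℤ × ℤ) (r : ℕ) :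
    ShortRuns r (l.map (· + p)) ↔ ShortRuns r l := by
  constructor
  · intro h a b hab
    have := h (a + lev p) (b + lev p) (by
      intro k h1 h2 hk
      rw [cut_shift] at hk
      exact hab _ (by linarith) (by linarith) hk)
    rw [cntI_shift] at this
    simpa using this
  · intro h a b hab
    rw [cntI_shift]
    apply h
    intro k h1 h2 hk
    apply hab (k + lev p) (by linarith) (by linarith)
    rw [cut_shift]
    simpa using hk

/-- the vertices of a rotated closed word -/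
lemma perm_rot (l₁ l₂ : List (Fin 4)) (h : ep 0 (l₁ ++ l₂) = 0) :
    (vs 0 (l₂ ++ l₁)).Perm ((vs 0 (l₁ ++ l₂)).map (· + (- ep 0 l₁))) := by
  have h3 : ep 0 l₂ = - ep 0 l₁ := by
    rw [ep_append, ep_eq] at h
    exact eq_neg_of_add_eq_zero_left h
  rw [vs_append, vs_append, List.map_append, vs_eq (ep 0 l₂) l₁, h3, vs_eq (ep 0 l₁) l₂,
    List.map_map]
  have h4 : ((fun x : ℤ × ℤ => x + - ep 0 l₁) ∘ fun x => x + ep 0 l₁) = id := by
    funext x
    simp
  rw [h4, List.map_id]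
  exact List.perm_append_comm

lemma cut_rot (l₁ l₂ : List (Fin 4)) (h : ep 0 (l₁ ++ l₂) = 0) (k : ℤ) :
    Cut (vs 0 (l₂ ++ l₁)) k ↔ Cut (vs 0 (l₁ ++ l₂)) (k + lev (ep 0 l₁)) := by
  rw [cut_perm (perm_rot l₁ l₂ h), cut_shift, lev_neg, sub_neg_eq_add]

lemma shortRuns_rot (l₁ l₂ : List (Fin 4)) (h : ep 0 (l₁ ++ l₂) = 0) (r : ℕ) :
    ShortRuns r (vs 0 (l₂ ++ l₁)) ↔ ShortRuns r (vs 0 (l₁ ++ l₂)) := by
  rw [shortRuns_perm (perm_rot l₁ l₂ h), shortRuns_shift]

lemma mem_Fam (r n : ℕ) (s : List (Fin 4)) :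
    s ∈ Fam r n ↔ (s.length = 2 * n ∧ SAPw s) ∧ ShortRuns r (vs 0 s) := by
  simp only [Fam, mem_filter, mem_W]

lemma fam_rot (r n : ℕ) (l₁ l₂ : List (Fin 4)) (h : l₁ ++ l₂ ∈ Fam r n) : l₂ ++ l₁ ∈ Fam r n := by
  rw [mem_Fam] at h ⊢
  obtain ⟨⟨h1, h2⟩, h3⟩ := h
  refine ⟨⟨?_, SAPw_rotate _ _ h2⟩, (shortRuns_rot l₁ l₂ h2.1 r).2 h3⟩
  rw [List.length_append] at h1 ⊢
  omega

lemma fam_rotate (r n j : ℕ) (s : List (Fin 4)) (h : s ∈ Fam r n) (hj : j ≤ 2 * n) :
    s.rotate j ∈ Fam r n := by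
  have hl := ((mem_Fam r n s).1 h).1.1
  rw [List.rotate_eq_drop_append_take (by omega)]
  apply fam_rot
  rwa [List.take_append_drop]

/-- base point change for the shoelace sum -/
lemma dbl_base (p : ℤ × ℤ) (s : List (Fin 4)) :
    dbl p s = dbl 0 s + (p.1 * (ep 0 s).2 - p.2 * (ep 0 s).1) := by
  induction s generalizing p with
  | nil => simp
  | cons d s ih =>
    rw [dbl_cons, dbl_cons, ih (p + dv d), ih (0 + dv d), ep_cons, ep_eq (0 + dv d)]
    simp only [Prod.fst_add, Prod.snd_add, Prod.fst_zero, Prod.snd_zero]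
    ring

lemma dbl_rotate (l₁ l₂ : List (Fin 4)) (h : ep 0 (l₁ ++ l₂) = 0) :
    dbl 0 (l₂ ++ l₁) = dbl 0 (l₁ ++ l₂) := by
  have h3 : ep 0 l₂ = - ep 0 l₁ := by
    rw [ep_append, ep_eq] at h
    exact eq_neg_of_add_eq_zero_left h
  rw [dbl_append, dbl_append, dbl_base (ep 0 l₂) l₁, dbl_base (ep 0 l₁) l₂, h3]
  simp only [Prod.fst_neg, Prod.snd_neg]
  ring

lemma dbl_rot' (n j : ℕ) (s : List (Fin 4)) (hl : s.length = 2 * n) (hs : ep 0 s = 0)
    (hj : j ≤ 2 * n) : dbl 0 (s.rotate j) = dbl 0 s := by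
  rw [List.rotate_eq_drop_append_take (by omega), dbl_rotate _ _ (by rwa [List.take_append_drop]),
    List.take_append_drop]

lemma dbl_rv (p : ℤ × ℤ) (s : List (Fin 4)) : dbl (ep p s) (rv s) = - dbl p s := by
  induction s generalizing p with
  | nil => simp [rv]
  | cons d s ih =>
    rw [rv_cons, dbl_append, ep_cons, ih (p + dv d), ep_rv (p + dv d) s, dbl_cons, dbl_cons,
      dbl_nil, dv_add_two]
    simp only [Prod.fst_add, Prod.snd_add, Prod.fst_neg, Prod.snd_neg]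
    ring

lemma vs_rv_perm (s : List (Fin 4)) (h : ep 0 s = 0) : (vs 0 (rv s)).Perm (vs 0 s) := by
  have h3 := vs_rv 0 s
  rw [h] at h3
  cases s with
  | nil => simp [rv]
  | cons a s =>
    have h4 : List.Perm (vs 0 (rv (a :: s)) ++ [0]) (vs 0 (a :: s) ++ [0]) := by
      rw [h3]; exact List.reverse_perm _
    exact (List.perm_append_right_iff [(0 : ℤ × ℤ)]).1 h4

lemma rv_length (s : List (Fin 4)) : (rv s).length = s.length := by
  simp [rv]

lemma fam_rv (r n : ℕ) (s : List (Fin 4)) (h : s ∈ Fam r n) : rv s ∈ Fam r n := by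
  rw [mem_Fam] at h ⊢
  obtain ⟨⟨h1, h2⟩, h3⟩ := h
  refine ⟨⟨by rw [rv_length, h1], SAPw_rv s h2⟩, ?_⟩
  rw [shortRuns_perm (vs_rv_perm s h2.1)]
  exact h3

end Pool.Agent.SapR.H58
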