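import Pool.Agent.Lib_helper58.SapR.Pos

/-! K1: canonical root and decomposition into an arch and a bottom cap. -/

set_option autoImplicit false

namespace Pool.Agent.SapR.H58

open Finset Pool.Agent.Lib27

lemma cnt_append (l l' : List (ℤ × ℤ)) (h : ℤ) : cnt (l ++ l') h = cnt l h + cnt l' h := by
  unfold cnt; rw [List.countP_append]

lemma cntI_append (l l' : List (ℤ × ℤ)) (a b : ℤ) :
    cntI (l ++ l') a b = cntI l a b + cntI l' a b := by
  unfold cntI; rw [List.countP_append]

lemma cnt_single (p : ℤ × ℤ) (h : ℤ) : cnt [p] h = if lev p = h then 1 else 0 := by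
  unfold cnt; simp [List.countP_cons]

lemma cntI_single (p : ℤ × ℤ) (a b : ℤ) :
    cntI [p] a b = if a ≤ lev p ∧ lev p ≤ b then 1 else 0 := by
  unfold cntI; simp [List.countP_cons]

/-- counts for the vertices of an arch without its end point -/
lemma arch_cnt_neg {x : ℤ} {w : List (Fin 4)} (hw : Arch x w) (h : ℤ) (hh : h < 0) :
    cnt (vs 0 w) h = 0 := by
  rw [cnt_eq, card_eq_zero, filter_eq_empty_iff]
  intro j hj hL
  rw [mem_range] at hj
  rcases Nat.eq_zero_or_pos j with h0 | h0
  · subst h0; rw [L_zero] at hL; omega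
  · have := L_pos_of_tail hw.2.2.2 j h0 hj
    omega

lemma arch_cnt_zero {x : ℤ} {w : List (Fin 4)} (hw : Arch x w) : cnt (vs 0 w) 0 = 1 := by
  have hl := arch_length hw
  rw [cnt_eq, card_eq_one]
  refine ⟨0, ?_⟩
  ext j
  rw [mem_filter, mem_range, mem_singleton]
  constructor
  · rintro ⟨hj, hL⟩
    by_contra h0
    have := L_pos_of_tail hw.2.2.2 j (by omega) hj
    omega
  · rintro rfl
    exact ⟨by omega, L_zero w⟩

lemma arch_cnt_one {x : ℤ} {w : List (Fin 4)} (hw : Arch x w) : 0 < cnt (vs 0 w) 1 := by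
  have hl := arch_length hw
  have h1 : L w 1 = 1 := by
    have := L_succ w 0 (by omega)
    rw [lev_dv_up (arch_up hw)] at this
    simpa using this
  rw [← h1]
  exact cnt_pos_of w 1 (by omega)

lemma lev_gap (x : ℤ) : lev (-x, x) = 0 := by simp [lev]

lemma arch_cnt_vt {x : ℤ} {w : List (Fin 4)} (hw : Arch x w) (h : ℤ) :
    cnt (vt 0 w) h = cnt (vs 0 w) h + if h = 0 then 1 else 0 := by
  unfold vt
  rw [cnt_append, cnt_single, hw.2.1, lev_gap]
  congr 1
  split_ifs <;> first | rfl | omega

section Glue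

variable {x : ℤ} {w T : List (Fin 4)}

lemma cnt_glue (hw : Arch x w) (h : ℤ) :
    cnt (vs 0 (w ++ rot2 T)) h = cnt (vs 0 w) h + cnt (vs 0 T) (-h) := by
  rw [vs_append, cnt_append, hw.2.1, vs_eq (-x, x), cnt_shift, lev_gap, sub_zero, vs_rot2']
  congr 1
  unfold cnt
  rw [List.countP_map]
  apply List.countP_congr
  intro q _
  simp only [Function.comp, lev_neg, decide_eq_true_eq]
  constructor <;> intro h <;> omega

lemma cnt_glue_nonneg (hw : Arch x w) (hT : Arch x T) (h : ℤ) (hh : 0 ≤ h) :
    cnt (vs 0 (w ++ rot2 T)) h = cnt (vt 0 w) h := by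
  rw [cnt_glue hw, arch_cnt_vt hw]
  split_ifs with h0
  · rw [h0, neg_zero, arch_cnt_zero hT]
  · rw [arch_cnt_neg hT _ (by omega)]

lemma cnt_glue_nonpos (hw : Arch x w) (hT : Arch x T) (h : ℤ) (hh : h ≤ 0) :
    cnt (vs 0 (w ++ rot2 T)) h = cnt (vt 0 T) (-h) := by
  rw [cnt_glue hw, arch_cnt_vt hT]
  split_ifs with h0
  · have : h = 0 := by omega
    rw [this, neg_zero, arch_cnt_zero hw]
    omega
  · rw [arch_cnt_neg hw _ (by omega)]
    omega

lemma cut_glue_pos (hw : Arch x w) (hT : Arch x T) (h : ℤ) (hh : 1 ≤ h) :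
    Cut (vs 0 (w ++ rot2 T)) h ↔ Cut (vt 0 w) h := by
  unfold Cut
  rw [cnt_glue_nonneg hw hT h (by omega), cnt_glue_nonneg hw hT (h - 1) (by omega),
    cnt_glue_nonneg hw hT (h + 1) (by omega)]

lemma cut_glue_neg (hw : Arch x w) (hT : Arch x T) (h : ℤ) (hh : 1 ≤ h) :
    Cut (vs 0 (w ++ rot2 T)) (-h) ↔ Cut (vt 0 T) h := by
  unfold Cut
  rw [cnt_glue_nonpos hw hT (-h) (by omega), cnt_glue_nonpos hw hT (-h - 1) (by omega),
    cnt_glue_nonpos hw hT (-h + 1) (by omega)]
  have h1 : -(-h) = h := by ring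
  have h2 : -(-h - 1) = h + 1 := by ring
  have h3 : -(-h + 1) = h - 1 := by ring
  rw [h1, h2, h3]
  tauto

lemma cut_glue_zero (hw : Arch x w) (hT : Arch x T) : Cut (vs 0 (w ++ rot2 T)) 0 := by
  refine ⟨?_, ?_, ?_⟩
  · rw [cnt_glue hw, neg_zero, arch_cnt_zero hw, arch_cnt_zero hT]
  · rw [cnt_glue hw]
    have := arch_cnt_one hT
    simp only [zero_sub, neg_neg]
    omega
  · rw [cnt_glue hw]
    have := arch_cnt_one hw
    simp only [zero_add]
    omega

lemma cntI_glue_pos (hw : Arch x w) (hT : Arch x T) (a b : ℤ) (ha : 1 ≤ a) :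
    cntI (vs 0 (w ++ rot2 T)) a b = cntI (vt 0 w) a b := by
  rw [vs_append, cntI_append]
  unfold vt
  rw [cntI_append, cntI_single, hw.2.1, lev_gap, if_neg (by omega), vs_eq (-x, x), cntI_shift,
    lev_gap, sub_zero, sub_zero, vs_rot2']
  have : cntI ((vs 0 T).map Neg.neg) a b = 0 := by
    unfold cntI
    rw [List.countP_eq_zero]
    intro p hp
    rw [List.mem_map] at hp
    obtain ⟨q, hq, rfl⟩ := hp
    simp only [decide_eq_true_eq, lev_neg]
    have hq' : 0 ≤ lev q := by
      cases T with
      | nil => simp at hq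
      | cons c T' =>
        rw [vs_cons, List.mem_cons] at hq
        rcases hq with hq | hq
        · rw [hq, lev_zero]
        · exact (hT.2.2.2 _ (by rw [vs_cons, List.tail_cons]; exact hq)).le
    omega
  rw [this]

lemma cntI_glue_neg (hw : Arch x w) (hT : Arch x T) (a b : ℤ) (hb : b ≤ -1) :
    cntI (vs 0 (w ++ rot2 T)) a b ≤ T.length - 1 := by
  rw [cntI_eq]
  have hlw := arch_length hw
  have hlT := arch_length hT
  have hsub : (range (w ++ rot2 T).length).filter
      (fun j => a ≤ L (w ++ rot2 T) j ∧ L (w ++ rot2 T) j ≤ b) ⊆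
      Ioo w.length (w ++ rot2 T).length := by
    intro j hj
    rw [mem_filter, mem_range] at hj
    obtain ⟨hj, _, hLj⟩ := hj
    rw [mem_Ioo]
    refine ⟨?_, hj⟩
    by_contra hcon
    obtain ⟨l1, l2, l3⟩ := glue_levels hw hT j hj
    rcases Nat.eq_zero_or_pos j with h0 | h0
    · subst h0; rw [L_zero] at hLj; omega
    · rcases lt_or_eq_of_le (not_lt.1 hcon) with h1 | h1
      · have := l1 h0 h1; omega
      · have := l2 h1; omega
  have h1 := card_le_card hsub
  have h2 : (Ioo w.length (w ++ rot2 T).length).card = T.length - 1 := by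
    rw [Nat.card_Ioo, List.length_append, rot2_length]
    omega
  omega

lemma cntI_glue_neg_all (hw : Arch x w) (hT : Arch x T) (a : ℤ)
    (ha : a ≤ -(2 * (w ++ rot2 T).length : ℤ)) :
    T.length - 1 ≤ cntI (vs 0 (w ++ rot2 T)) a (-1) := by
  rw [cntI_eq]
  have hsub : Ioo w.length (w ++ rot2 T).length ⊆ (range (w ++ rot2 T).length).filter
      (fun j => a ≤ L (w ++ rot2 T) j ∧ L (w ++ rot2 T) j ≤ -1) := by
    intro j hj
    rw [mem_Ioo] at hj
    rw [mem_filter, mem_range]
    have h1 := L_bound (w ++ rot2 T) j hj.2.le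
    obtain ⟨l1, l2, l3⟩ := glue_levels hw hT j hj.2
    have := l3 hj.1
    exact ⟨hj.2, by omega, by omega⟩
  have h1 := card_le_card hsub
  rw [Nat.card_Ioo, List.length_append, rot2_length] at h1
  rw [List.length_append, rot2_length]
  omega

/-- area of a glued word -/
lemma dbl_glue (hw : ep 0 w = (-x, x)) (hT : ep 0 T = (-x, x)) :
    dbl 0 (w ++ rot2 T) = dbl 0 w + dbl 0 T := by
  rw [dbl_append, hw, dbl_base (-x, x), dbl_rot2', ep_rot2', hT]
  simp only [Prod.neg_mk, neg_neg]
  ring

end Glue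

open Classical in
lemma mem_CapSet (r : ℕ) (x : ℤ) (N : ℕ) (w : List (Fin 4)) : w ∈ CapSet r x N ↔
    w.length = N ∧ Arch x w ∧ (∀ h : ℤ, 1 ≤ h → ¬ Cut (vt 0 w) h) ∧ N ≤ r + 1 := by
  simp only [CapSet, mem_filter, mem_words]

lemma mem_ArchSet (r : ℕ) (x : ℤ) (N : ℕ) (w : List (Fin 4)) : w ∈ ArchSet r x N ↔
    w.length = N ∧ Arch x w ∧ ArchRuns r w := by
  simp only [ArchSet, mem_filter, mem_words]

/-- glued words are canonical words of the family -/
lemma glue_mem (r n M : ℕ) (x : ℤ) (hx : 1 ≤ x) (w T : List (Fin 4))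
    (hT : T ∈ CapSet r x M) (hw : w ∈ ArchSet r x (2 * n - M)) :
    w ++ rot2 T ∈ Fam r n ∧ Canon (w ++ rot2 T) := by
  rw [mem_CapSet] at hT
  rw [mem_ArchSet] at hw
  obtain ⟨hTl, hTa, hTc, hTM⟩ := hT
  obtain ⟨hwl, hwa, hwr⟩ := hw
  have hlw := arch_length hwa
  have hlT := arch_length hTa
  constructor
  · rw [mem_Fam]
    refine ⟨⟨by rw [List.length_append, rot2_length]; omega, glue_SAPw (by omega) hwa hTa⟩, ?_⟩
    intro a b hab
    by_cases ha : 1 ≤ a
    · rw [cntI_glue_pos hwa hTa a b ha]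
      apply hwr a b ha
      intro h h1 h2 hc
      exact hab h h1 h2 ((cut_glue_pos hwa hTa h (by omega)).2 hc)
    · by_cases hb : b ≤ -1
      · have := cntI_glue_neg hwa hTa a b hb
        omega
      · exact absurd (cut_glue_zero hwa hTa) (hab 0 (by omega) (by omega))
  · refine ⟨glue_up hwa, cut_glue_zero hwa hTa, ?_⟩
    intro h hh hc
    obtain ⟨k, rfl⟩ : ∃ k, h = -k := ⟨-h, by ring⟩
    exact hTc k (by omega) ((cut_glue_neg hwa hTa k (by omega)).1 hc)

lemma vt_take (s : List (Fin 4)) (m : ℕ) (hm : m < s.length) :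
    vt 0 (s.take m) = (vs 0 s).take (m + 1) := by
  apply List.ext_getElem
  · simp [vt]
    omega
  · intro j h1 h2
    rw [List.getElem_take, vs_getElem]
    unfold vt at h1 ⊢
    rw [List.length_append, vs_length, List.length_take, List.length_singleton] at h1
    rcases lt_or_eq_of_le (show j ≤ m by omega) with h3 | h3
    · rw [List.getElem_append_left (by simp; omega), vs_getElem, List.take_take,
        min_eq_left h3.le]
    · subst h3
      rw [List.getElem_append_right (by simp)]
      simp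

/-- decomposition of a canonical word -/
lemma canon_decomp (r n : ℕ) (c : List (Fin 4)) (hc : c ∈ Fam r n) (hC : Canon c) :
    ∃ (x : ℤ) (w T : List (Fin 4)), x ≠ 0 ∧ c = w ++ rot2 T ∧ Arch x w ∧ Arch x T ∧
      T ∈ CapSet r x T.length ∧ w ∈ ArchSet r x (2 * n - T.length) := by
  rw [mem_Fam] at hc
  obtain ⟨⟨hl, hS⟩, hR⟩ := hc
  obtain ⟨c1, c2, c3⟩ := hC
  obtain ⟨i, m, hi, hm, hLi, hLm, hui, hum, him, huniq⟩ := cut_cross c hS.1 0 c2
  have hi0 : i = 0 := by
    rcases huniq 0 (by omega) (L_zero c) with h | h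
    · exact h.symm
    · subst h; exact absurd c1 hum
  subst hi0
  have hm0 : 0 < m := by omega
  -- levels
  have hpos : ∀ j, 0 < j → j < m → 0 < L c j := by
    intro j
    induction j with
    | zero => intro h; omega
    | succ j ih =>
      intro _ hj
      rcases Nat.eq_zero_or_pos j with h0 | h0
      · subst h0
        rw [L_succ c 0 (by omega), lev_dv_up c1, L_zero]
        norm_num
      · have h1 := ih h0 (by omega)
        have h2 := L_succ c j (by omega)
        have h3 : L c (j + 1) ≠ 0 := by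
          intro h
          rcases huniq (j + 1) (by omega) h with h | h <;> omega
        rw [lev_dv] at h2
        split_ifs at h2 <;> omega
  have hneg : ∀ k, m + (k + 1) < c.length → L c (m + (k + 1)) < 0 := by
    intro k
    induction k with
    | zero =>
      intro hk
      rw [zero_add, L_succ c m hm, lev_dv_down hum, hLm]
      norm_num
    | succ k ih =>
      intro hk
      have h1 := ih (by omega)
      have h2 := L_succ c (m + (k + 1)) (by omega)
      have h3 : L c (m + (k + 1) + 1) ≠ 0 := by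
        intro h
        rcases huniq (m + (k + 1) + 1) (by omega) h with h | h <;> omega
      rw [lev_dv] at h2
      rw [← add_assoc]
      split_ifs at h2 <;> omega
  set w := c.take m with hw
  set B := c.drop m with hB
  set T := rot2 B with hT
  have hcw : c = w ++ rot2 T := by rw [hT, rot2_rot2, hw, hB, List.take_append_drop]
  have hwl : w.length = m := by rw [hw, List.length_take]; omega
  have hBl : B.length = c.length - m := by rw [hB, List.length_drop]
  have hTl : T.length = c.length - m := by rw [hT, rot2_length, hBl]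
  set x := (ep 0 w).2 with hx
  have hlevw : lev (ep 0 w) = 0 := hLm
  have hepw : ep 0 w = (-x, x) := by
    rw [Prod.ext_iff]
    simp only [lev] at hlevw
    refine ⟨?_, rfl⟩
    simp only
    linarith
  have hepB : ep 0 B = - ep 0 w := by
    have h1 : ep 0 (w ++ B) = 0 := by rw [hw, hB, List.take_append_drop]; exact hS.1
    rw [ep_append, ep_eq] at h1
    exact eq_neg_of_add_eq_zero_left h1
  have hepT : ep 0 T = (-x, x) := by
    rw [hT, ep_rot2', hepB, neg_neg, hepw]
  have hx0 : x ≠ 0 := by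
    intro h0
    have h1 : ep 0 (c.take m) = ep 0 (c.take 0) := by
      rw [← hw, hepw, h0]; simp
    have := vertex_inj c hS m 0 hm (by omega) h1
    omega
  have hwA : Arch x w := by
    refine ⟨?_, hepw, ?_, ?_⟩
    · intro h
      rw [h] at hwl
      simp at hwl
      omega
    · rw [hw, vt_take c m hm]
      exact hS.2.sublist (List.take_sublist _ _)
    · apply tail_of_L_pos
      intro j h0 h1
      rw [hwl] at h1
      have h2 := hpos j h0 h1
      rw [hcw, L_glue_left j (by omega)] at h2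
      exact h2
  have hTA : Arch x T := by
    refine ⟨?_, hepT, ?_, ?_⟩
    · intro h
      rw [h] at hTl
      simp at hTl
      omega
    · have h1 : SAPw (B ++ w) := by
        apply SAPw_rotate
        rw [hw, hB, List.take_append_drop]
        exact hS
      have h2 := vt_take (B ++ w) B.length (by rw [List.length_append]; omega)
      rw [List.take_left] at h2
      have h3 : (vt 0 B).Nodup := by
        rw [h2]
        exact h1.2.sublist (List.take_sublist _ _)
      have h4 : vt 0 T = (vt 0 B).map Neg.neg := by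
        unfold vt
        rw [hT, vs_rot2', ep_rot2']
        simp
      rw [h4]
      exact h3.map neg_injective
    · apply tail_of_L_pos
      intro j h0 h1
      rw [hTl] at h1
      have h2 := hneg (j - 1) (by omega)
      have h3 : m + (j - 1 + 1) = w.length + j := by omega
      rw [h3, hcw, L_glue_right hepw] at h2
      omega
  refine ⟨x, w, T, hx0, hcw, hwA, hTA, ?_, ?_⟩
  · rw [mem_CapSet]
    refine ⟨rfl, hTA, ?_, ?_⟩
    · intro h h1 hcut
      apply c3 (-h) (by omega)
      rw [hcw]
      exact (cut_glue_neg hwA hTA h h1).2 hcut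
    · have h1 := cntI_glue_neg_all hwA hTA (-(2 * (w ++ rot2 T).length : ℤ)) le_rfl
      rw [← hcw] at h1
      have h2 := hR (-(2 * c.length : ℤ)) (-1) (fun h _ h2 => c3 h (by omega))
      omega
  · rw [mem_ArchSet]
    refine ⟨by omega, hwA, ?_⟩
    intro a b ha hab
    rw [← cntI_glue_pos hwA hTA a b ha, ← hcw]
    apply hR
    intro h h1 h2 hcut
    rw [hcw] at hcut
    exact hab h h1 h2 ((cut_glue_pos hwA hTA h (by omega)).1 hcut)

/-! ### Reversal of arches -/

lemma ep_rv' (w : List (Fin 4)) : ep 0 (rv w) = - ep 0 w := by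
  have h := ep_rv 0 w
  rw [ep_eq] at h
  exact eq_neg_of_add_eq_zero_left h

lemma vt_rv (w : List (Fin 4)) : (vt 0 (rv w)) = ((vt 0 w).reverse).map (· + - ep 0 w) := by
  have h := vs_rv 0 w
  unfold vt
  rw [← h, List.map_append, vs_eq (ep 0 w) (rv w), List.map_map, ep_rv']
  have h4 : ((fun x : ℤ × ℤ => x + - ep 0 w) ∘ fun x => x + ep 0 w) = id := by
    funext x
    simp
  rw [h4, List.map_id]
  simp

lemma dbl_rv' (w : List (Fin 4)) : dbl 0 (rv w) = - dbl 0 w := by
  have h := dbl_rv 0 w
  rw [dbl_base (ep 0 w), ep_rv'] at h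
  simp only [Prod.fst_neg, Prod.snd_neg] at h
  linarith

lemma arch_rv {x : ℤ} {w : List (Fin 4)} (hw : Arch x w) : Arch (-x) (rv w) := by
  obtain ⟨h1, h2, h3, h4⟩ := hw
  refine ⟨?_, ?_, ?_, ?_⟩
  · intro h
    apply h1
    have := rv_length w
    rw [h] at this
    exact List.length_eq_zero_iff.1 (by simpa using this.symm)
  · rw [ep_rv', h2]; simp
  · rw [vt_rv]
    apply List.Nodup.map (add_left_injective _)
    exact List.nodup_reverse.2 h3
  · intro p hp
    have hp' : p ∈ (vt 0 (rv w)).tail := by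
      unfold vt
      cases hrw : vs 0 (rv w) with
      | nil => rw [hrw] at hp; simp at hp
      | cons a l =>
        rw [hrw] at hp
        rw [List.cons_append, List.tail_cons]
        exact List.mem_append_left _ hp
    -- position argument
    obtain ⟨i, hi, hpi⟩ := List.getElem_of_mem hp
    rw [List.length_tail, vs_length, rv_length] at hi
    rw [List.getElem_tail] at hpi
    have h5 : (vs 0 (rv w))[i + 1]'(by rw [vs_length, rv_length]; omega) =
        (vt 0 (rv w))[i + 1]'(by unfold vt; simp [rv_length]; omega) := by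
      unfold vt
      rw [List.getElem_append_left]
    rw [h5] at hpi
    have h6 : (vt 0 (rv w))[i + 1]'(by unfold vt; simp [rv_length]; omega) =
        ep 0 (w.take (w.length - (i + 1))) + - ep 0 w := by
      simp only [vt_rv]
      rw [List.getElem_map, List.getElem_reverse]
      congr 1
      unfold vt
      rw [List.getElem_append_left (by simp; omega), vs_getElem]
      congr 2
      simp
    rw [h6] at hpi
    rw [← hpi, lev_add, lev_neg, h2, lev_gap]
    have h7 := L_pos_of_tail h4 (w.length - (i + 1)) (by omega) (by omega)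
    unfold L at h7
    omega

/-- sign of the area of a glued word -/
lemma dbl_glue_sign {x : ℤ} {w T : List (Fin 4)} (hw : Arch x w) (hT : Arch x T) (hx : x ≠ 0) :
    (1 ≤ x ∧ 0 < dbl 0 (w ++ rot2 T)) ∨ (x ≤ -1 ∧ dbl 0 (w ++ rot2 T) < 0) := by
  rcases lt_or_gt_of_ne hx with h | h
  · right
    refine ⟨by omega, ?_⟩
    have h1 := k1pos (-x) (rv w) (rv T) (by omega) (arch_rv hw) (arch_rv hT)
    rw [dbl_glue (arch_rv hw).2.1 (arch_rv hT).2.1, dbl_rv', dbl_rv'] at h1
    rw [dbl_glue hw.2.1 hT.2.1]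
    omega
  · left
    exact ⟨by omega, k1pos x w T (by omega) hw hT⟩

lemma dbl_ne_zero (r n : ℕ) (hr : r < 2 * n) (s : List (Fin 4)) (hs : s ∈ Fam r n) :
    dbl 0 s ≠ 0 := by
  obtain ⟨i, hi, hci, _⟩ := existsUnique_root r n hr s hs
  obtain ⟨x, w, T, hx, hcw, hwA, hTA, _, _⟩ :=
    canon_decomp r n _ (fam_rotate r n i s hs hi.le) hci
  have hs' := (mem_Fam r n s).1 hs
  rw [← dbl_rot' n i s hs'.1.1 hs'.1.2.1 hi.le, hcw]
  rcases dbl_glue_sign hwA hTA hx with h | h
  · exact ne_of_gt h.2
  · exact ne_of_lt h.2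

lemma gap_le_length (p : ℤ × ℤ) (s : List (Fin 4)) :
    (ep p s).2 - (ep p s).1 ≤ p.2 - p.1 + s.length := by
  induction s generalizing p with
  | nil => simp
  | cons a s ih =>
    have h1 := ih (p + dv a)
    have h2 : ∀ a : Fin 4, (dv a).2 - (dv a).1 ≤ 1 := by decide
    have h2 := h2 a
    rw [ep_cons, List.length_cons]
    push_cast
    simp only [Prod.fst_add, Prod.snd_add] at h1
    linarith

lemma glue_len {x x' : ℤ} {w T w' T' : List (Fin 4)} (hw : Arch x w) (hT : Arch x T)
    (hw' : Arch x' w') (hT' : Arch x' T') (h : w ++ rot2 T = w' ++ rot2 T') :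
    w.length = w'.length := by
  have hlT := arch_length hT
  have hlT' := arch_length hT'
  have hlw := arch_length hw
  have hlw' := arch_length hw'
  have hlen : (w ++ rot2 T).length = (w' ++ rot2 T').length := by rw [h]
  rw [List.length_append, rot2_length, List.length_append, rot2_length] at hlen
  have h1 : L (w ++ rot2 T) w.length = 0 := by
    rw [L_glue_left _ le_rfl, ep_gap_lev hw.2.1]
  rw [h] at h1
  obtain ⟨l1, l2, l3⟩ := glue_levels hw' hT' w.length (by
    rw [List.length_append, rot2_length]; omega)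
  rcases lt_trichotomy w.length w'.length with h2 | h2 | h2
  · have := l1 (by omega) h2
    omega
  · exact h2
  · have := l3 h2
    omega

theorem k1 : K1_Stmt := by
  classical
  intro r n hr F
  set G : List (Fin 4) → ℝ := fun s => if 0 < dbl 0 s then F (dbl 0 s) else 0 with hG
  -- step 1: reversal
  have h1 : ∑ s ∈ Fam r n, F |dbl 0 s| = 2 * ∑ s ∈ Fam r n, G s := by
    have e1 : ∀ s ∈ Fam r n, F |dbl 0 s| = G s + G (rv s) := by
      intro s hs
      have hne := dbl_ne_zero r n hr s hs
      simp only [hG, dbl_rv']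
      rcases lt_or_gt_of_ne hne with h | h
      · rw [if_neg (by omega), if_pos (by omega), abs_of_neg h, zero_add]
      · rw [if_pos h, if_neg (by omega), abs_of_pos h, add_zero]
    rw [sum_congr rfl e1, sum_add_distrib]
    have e2 : ∑ s ∈ Fam r n, G (rv s) = ∑ s ∈ Fam r n, G s := by
      refine sum_nbij' rv rv (fun s hs => fam_rv r n s hs) (fun s hs => fam_rv r n s hs)
        (fun s _ => rv_rv s) (fun s _ => rv_rv s) (fun s _ => rfl)
    rw [e2]; ring
  -- step 2: rotation
  have h2 : ∑ s ∈ Fam r n, G s = 2 * n * ∑ s ∈ (Fam r n).filter Canon, G s := by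
    apply sum_canon r n hr
    intro s hs j hj
    have hs' := (mem_Fam r n s).1 hs
    simp only [hG]
    rw [dbl_rot' n j s hs'.1.1 hs'.1.2.1 hj]
  -- step 3: decomposition
  have h3 : ∑ s ∈ (Fam r n).filter Canon, G s =
      ∑ x ∈ Icc (1 : ℤ) r, ∑ M ∈ range (r + 2), ∑ T ∈ CapSet r x M,
        ∑ w ∈ ArchSet r x (2 * n - M), F (dbl 0 w + dbl 0 T) := by
    simp only [hG]
    rw [← sum_filter]
    simp only [sum_sigma']
    symm
    refine sum_nbij (fun p => p.2.2.2 ++ rot2 p.2.2.1) ?_ ?_ ?_ ?_
    · rintro ⟨x, M, T, w⟩ hp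
      simp only [mem_sigma, mem_Icc, mem_range] at hp
      obtain ⟨⟨hx1, hx2⟩, hM, hT, hw⟩ := hp
      have := glue_mem r n M x hx1 w T hT hw
      rw [mem_CapSet] at hT
      rw [mem_ArchSet] at hw
      rw [mem_filter, mem_filter]
      exact ⟨this, k1pos x w T hx1 hw.2.1 hT.2.1⟩
    · rintro ⟨x, M, T, w⟩ hp ⟨x', M', T', w'⟩ hp' heq
      rw [mem_coe] at hp hp'
      simp only [mem_sigma, mem_Icc, mem_range] at hp hp'
      obtain ⟨⟨hx1, hx2⟩, hM, hT, hw⟩ := hp
      obtain ⟨⟨hx1', hx2'⟩, hM', hT', hw'⟩ := hp'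
      rw [mem_CapSet] at hT hT'
      rw [mem_ArchSet] at hw hw'
      simp only at heq
      have hl := glue_len hw.2.1 hT.2.1 hw'.2.1 hT'.2.1 heq
      obtain ⟨e1, e2⟩ := List.append_inj heq hl
      have e3 : T = T' := by
        have := congrArg rot2 e2
        rwa [rot2_rot2, rot2_rot2] at this
      have e4 : x = x' := by
        have h4 := hw.2.1.2.1
        have h5 := hw'.2.1.2.1
        rw [e1, h5, Prod.ext_iff] at h4
        exact h4.2.symm
      have e5 : M = M' := by rw [← hT.1, ← hT'.1, e3]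
      subst e1 e3 e4 e5
      rfl
    · intro c hc
      rw [mem_coe, mem_filter, mem_filter] at hc
      obtain ⟨⟨hcF, hcC⟩, hcd⟩ := hc
      obtain ⟨x, w, T, hx, hcw, hwA, hTA, hTc, hwc⟩ := canon_decomp r n c hcF hcC
      have hx1 : 1 ≤ x := by
        rcases dbl_glue_sign hwA hTA hx with h | h
        · exact h.1
        · rw [← hcw] at h
          omega
      have hT' := (mem_CapSet r x _ T).1 hTc
      have hxl : 2 * x ≤ T.length := by
        have := gap_le_length 0 T
        rw [hTA.2.1] at this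
        simp only [Prod.fst_zero, Prod.snd_zero] at this
        linarith
      have hTr := hT'.2.2.2
      refine ⟨⟨x, T.length, T, w⟩, ?_, ?_⟩
      · rw [mem_coe]
        simp only [mem_sigma, mem_Icc, mem_range]
        exact ⟨⟨hx1, by omega⟩, by omega, hTc, hwc⟩
      · exact hcw.symm
    · rintro ⟨x, M, T, w⟩ hp
      simp only [mem_sigma, mem_Icc, mem_range] at hp
      obtain ⟨⟨hx1, hx2⟩, hM, hT, hw⟩ := hp
      rw [mem_CapSet] at hT
      rw [mem_ArchSet] at hw
      simp only
      rw [dbl_glue hw.2.1.2.1 hT.2.1.2.1]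
  rw [h1, h2, h3]
  ring

end Pool.Agent.SapR.H58
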