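import Pool.Agent.Lib_helper58.SapR.Root
import Pool.Agent.Lib_helper27.Winding

/-! Gluing of two arches to a polygon word, and its positive orientation (K1pos). -/

set_option autoImplicit false

namespace Pool.Agent.SapR.H58

open Finset Pool.Agent.Lib27

/-! ### Rotation by 180 degrees -/

@[simp] lemma rot2_nil : rot2 [] = [] := rfl
lemma rot2_cons (a : Fin 4) (s : List (Fin 4)) : rot2 (a :: s) = (a + 2) :: rot2 s := rfl
@[simp] lemma rot2_length (s : List (Fin 4)) : (rot2 s).length = s.length := by simp [rot2]

lemma rot2_rot2 (s : List (Fin 4)) : rot2 (rot2 s) = s := by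
  induction s with
  | nil => rfl
  | cons a s ih => rw [rot2_cons, rot2_cons, ih, fin4_add_two_two]

lemma rot2_append (s t : List (Fin 4)) : rot2 (s ++ t) = rot2 s ++ rot2 t := by
  simp [rot2]

lemma rot2_take (s : List (Fin 4)) (i : ℕ) : (rot2 s).take i = rot2 (s.take i) := by
  simp [rot2, List.map_take]

lemma rot2_drop (s : List (Fin 4)) (i : ℕ) : (rot2 s).drop i = rot2 (s.drop i) := by
  simp [rot2, List.map_drop]

lemma ep_rot2 (p : ℤ × ℤ) (s : List (Fin 4)) : ep (-p) (rot2 s) = - ep p s := by
  induction s generalizing p with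
  | nil => simp
  | cons a s ih =>
    rw [rot2_cons, ep_cons, ep_cons, ← ih, dv_add_two, neg_add]

lemma ep_rot2' (s : List (Fin 4)) : ep 0 (rot2 s) = - ep 0 s := by
  have := ep_rot2 0 s
  rwa [neg_zero] at this

lemma vs_rot2 (p : ℤ × ℤ) (s : List (Fin 4)) : vs (-p) (rot2 s) = (vs p s).map Neg.neg := by
  induction s generalizing p with
  | nil => simp
  | cons a s ih =>
    rw [rot2_cons, vs_cons, vs_cons, List.map_cons, ← ih, dv_add_two, neg_add]

lemma vs_rot2' (s : List (Fin 4)) : vs 0 (rot2 s) = (vs 0 s).map Neg.neg := by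
  have := vs_rot2 0 s
  rwa [neg_zero] at this

lemma dbl_rot2 (p : ℤ × ℤ) (s : List (Fin 4)) : dbl (-p) (rot2 s) = dbl p s := by
  induction s generalizing p with
  | nil => simp
  | cons a s ih =>
    rw [rot2_cons, dbl_cons, dbl_cons, ← ih, dv_add_two, neg_add]
    simp only [Prod.fst_neg, Prod.snd_neg]
    ring

lemma dbl_rot2' (s : List (Fin 4)) : dbl 0 (rot2 s) = dbl 0 s := by
  have := dbl_rot2 0 s
  rwa [neg_zero] at this

/-! ### Arches in terms of times -/

lemma L_pos_of_tail {w : List (Fin 4)} (h : ∀ p ∈ (vs 0 w).tail, 0 < lev p) (j : ℕ) (h0 : 0 < j)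
    (hj : j < w.length) : 0 < L w j := by
  apply h
  obtain ⟨i, rfl⟩ : ∃ i, j = i + 1 := ⟨j - 1, by omega⟩
  have h1 : i < (vs 0 w).tail.length := by simp; omega
  have h2 : (vs 0 w).tail[i] = ep 0 (w.take (i + 1)) := by
    rw [List.getElem_tail, vs_getElem]
  rw [← h2]
  exact List.getElem_mem _

lemma tail_of_L_pos {w : List (Fin 4)} (h : ∀ j, 0 < j → j < w.length → 0 < L w j) :
    ∀ p ∈ (vs 0 w).tail, 0 < lev p := by
  intro p hp
  obtain ⟨i, hi, rfl⟩ := List.getElem_of_mem hp
  rw [List.getElem_tail, vs_getElem]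
  rw [List.length_tail, vs_length] at hi
  exact h (i + 1) (by omega) (by omega)

lemma ep_gap_lev {x : ℤ} {w : List (Fin 4)} (h : ep 0 w = (-x, x)) : L w w.length = 0 := by
  unfold L
  rw [List.take_length, h]
  simp [lev]

lemma arch_length {x : ℤ} {w : List (Fin 4)} (h : Arch x w) : 2 ≤ w.length := by
  obtain ⟨h1, h2, h3, h4⟩ := h
  have h5 : w.length ≠ 0 := by
    intro h0
    exact h1 (List.length_eq_zero_iff.1 h0)
  have h6 : w.length ≠ 1 := by
    intro h0
    have h7 := L_succ w 0 (by omega)
    have h8 := ep_gap_lev h2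
    rw [h0] at h8
    rw [zero_add, h8, L_zero] at h7
    rw [lev_dv] at h7
    split_ifs at h7 <;> omega
  omega

lemma arch_up {x : ℤ} {w : List (Fin 4)} (h : Arch x w) : w.getD 0 0 = 0 ∨ w.getD 0 0 = 1 := by
  have hl := arch_length h
  have h1 := L_succ w 0 (by omega)
  have h2 := L_pos_of_tail h.2.2.2 1 (by omega) (by omega)
  by_contra hu
  rw [lev_dv_down hu] at h1
  rw [zero_add, L_zero] at h1
  omega

/-! ### Gluing two arches -/

section Glue

variable {x : ℤ} {w T : List (Fin 4)}

lemma glue_take_left (j : ℕ) (hj : j ≤ w.length) : (w ++ rot2 T).take j = w.take j := by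
  rw [List.take_append_of_le_length hj]

lemma glue_ep_right (hw : ep 0 w = (-x, x)) (i : ℕ) :
    ep 0 ((w ++ rot2 T).take (w.length + i)) = (-x, x) + - ep 0 (T.take i) := by
  rw [List.take_append, List.take_of_length_le (by omega), Nat.add_sub_cancel_left,
    ep_append, rot2_take, hw, ep_eq, ep_rot2', add_comm]

lemma L_glue_left (j : ℕ) (hj : j ≤ w.length) : L (w ++ rot2 T) j = L w j := by
  unfold L
  rw [glue_take_left j hj]

lemma L_glue_right (hw : ep 0 w = (-x, x)) (i : ℕ) :
    L (w ++ rot2 T) (w.length + i) = - L T i := by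
  unfold L
  rw [glue_ep_right hw, lev_add, lev_neg]
  simp [lev]

lemma glue_closed (hw : ep 0 w = (-x, x)) (hT : ep 0 T = (-x, x)) : ep 0 (w ++ rot2 T) = 0 := by
  rw [ep_append, ep_eq, ep_rot2', hw, hT]
  simp

lemma glue_SAPw (hx : x ≠ 0) (hw : Arch x w) (hT : Arch x T) : SAPw (w ++ rot2 T) := by
  refine ⟨glue_closed hw.2.1 hT.2.1, ?_⟩
  rw [vs_append, hw.2.1, vs_eq (-x, x), vs_rot2']
  have hw3 := hw.2.2.1
  have hT3 := hT.2.2.1
  unfold vt at hw3 hT3
  rw [List.nodup_append'] at hw3 hT3
  rw [List.nodup_append']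
  refine ⟨hw3.1, ?_, ?_⟩
  · apply List.Nodup.map (add_left_injective _)
    exact List.Nodup.map neg_injective hT3.1
  · intro p hp hp'
    rw [List.mem_map] at hp'
    obtain ⟨q, hq, rfl⟩ := hp'
    rw [List.mem_map] at hq
    obtain ⟨q, hq, rfl⟩ := hq
    have hlw : 0 ≤ lev (-q + (-x, x)) := by
      cases w with
      | nil => simp at hp
      | cons a w' =>
        rw [vs_cons, List.mem_cons] at hp
        rcases hp with hp | hp
        · rw [hp, lev_zero]
        · exact (hw.2.2.2 _ (by rw [vs_cons, List.tail_cons]; exact hp)).le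
    have hlT : 0 ≤ lev q := by
      cases T with
      | nil => simp at hq
      | cons a w' =>
        rw [vs_cons, List.mem_cons] at hq
        rcases hq with hq | hq
        · rw [hq, lev_zero]
        · exact (hT.2.2.2 _ (by rw [vs_cons, List.tail_cons]; exact hq)).le
    have h1 : lev (-q + (-x, x)) = - lev q := by
      rw [lev_add, lev_neg]; simp [lev]
    have h2 : lev q = 0 := by omega
    have hq0 : q = 0 := by
      cases T with
      | nil => simp at hq
      | cons a w' =>
        rw [vs_cons, List.mem_cons] at hq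
        rcases hq with hq | hq
        · exact hq
        · have := hT.2.2.2 _ (by rw [vs_cons, List.tail_cons]; exact hq)
          omega
    subst hq0
    cases w with
    | nil => simp at hp
    | cons a w' =>
      rw [vs_cons, List.mem_cons] at hp
      rcases hp with hp | hp
      · simp [Prod.ext_iff] at hp
        exact hx hp
      · have := hw.2.2.2 _ (by rw [vs_cons, List.tail_cons]; exact hp)
        simp [lev] at this

lemma glue_up (hw : Arch x w) : (w ++ rot2 T).getD 0 0 = 0 ∨ (w ++ rot2 T).getD 0 0 = 1 := by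
  have hl := arch_length hw
  rw [List.getD_append _ _ _ _ (by omega)]
  exact arch_up hw

/-- levels of the glued word -/
lemma glue_levels (hw : Arch x w) (hT : Arch x T) (j : ℕ) (hj : j < (w ++ rot2 T).length) :
    (0 < j → j < w.length → 0 < L (w ++ rot2 T) j) ∧
    (j = w.length → L (w ++ rot2 T) j = 0) ∧
    (w.length < j → L (w ++ rot2 T) j < 0) := by
  refine ⟨?_, ?_, ?_⟩
  · intro h0 h1
    rw [L_glue_left j h1.le]
    exact L_pos_of_tail hw.2.2.2 j h0 h1
  · rintro rfl
    rw [L_glue_left _ le_rfl, ep_gap_lev hw.2.1]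
  · intro h1
    obtain ⟨i, rfl⟩ : ∃ i, j = w.length + i := ⟨j - w.length, by omega⟩
    rw [L_glue_right hw.2.1]
    rw [List.length_append, rot2_length] at hj
    have := L_pos_of_tail hT.2.2.2 i (by omega) (by omega)
    omega

end Glue

/-! ### Orientation -/

lemma flow_zero (s : List (Fin 4)) (hs : ep 0 s = 0) (v : ℤ × ℤ)
    (hv : ∀ j, j < s.length → ep 0 (s.take j) ≠ v) (g : Fin 4) : flow 0 s v g = 0 := by
  rw [flow_sum]
  apply sum_eq_zero
  intro k hk
  rw [mem_range] at hk
  unfold fstep
  rw [if_neg, if_neg]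
  · norm_num
  · rintro ⟨h, h'⟩
    have h1 : ep 0 (s.take (k + 1)) = v := by
      rw [vertex_succ s k hk, h, h', dv_add_two]
      abel
    by_cases h2 : k + 1 < s.length
    · exact hv _ h2 h1
    · have h3 : k + 1 = s.length := by omega
      rw [h3, List.take_length, hs] at h1
      exact hv 0 (by omega) (by simpa using h1)
  · rintro ⟨h, _⟩
    exact hv k hk h

lemma wind_far (s : List (Fin 4)) (f : ℤ × ℤ) (hf : (s.length : ℤ) ≤ f.1) : wind 0 s f = 0 := by
  rw [wind_sum]
  apply sum_eq_zero
  intro k hk
  rw [mem_range] at hk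
  have := vertex_bound s k hk.le
  unfold wstep
  rw [if_neg, if_neg]
  · rintro ⟨_, _, h⟩
    omega
  · rintro ⟨_, _, h⟩
    omega

theorem k1pos : K1pos_Stmt := by
  intro x w T hx hw hT
  have hx0 : x ≠ 0 := by omega
  set c := w ++ rot2 T with hc
  have hS : SAPw c := glue_SAPw hx0 hw hT
  have hlw := arch_length hw
  have hlT := arch_length hT
  have hlc : c.length = w.length + T.length := by rw [hc, List.length_append, rot2_length]
  have h3 : 3 ≤ c.length := by omega
  have hlev : ∀ j, j < c.length → (0 < j → j < w.length → 0 < L c j) ∧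
    (j = w.length → L c j = 0) ∧ (w.length < j → L c j < 0) := fun j hj => glue_levels hw hT j hj
  have hup := glue_up (T := T) hw
  rw [← hc] at hup
  -- far faces on the right of the origin
  have hstep : ∀ k : ℕ, wind 0 c ((k : ℤ), -(k : ℤ) - 1) =
      wind 0 c (((k + 1 : ℕ) : ℤ), -((k + 1 : ℕ) : ℤ) - 1) := by
    intro k
    have hv : ∀ j, j < c.length → ep 0 (c.take j) ≠ (((k : ℤ) + 1), -(k : ℤ) - 1) := by
      intro j hj he
      have h1 : L c j = 0 := by
        unfold L
        rw [he]
        simp only [lev]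
        ring
      rcases Nat.eq_zero_or_pos j with h0 | h0
      · subst h0
        simp [Prod.ext_iff] at he
        omega
      · obtain ⟨l1, l2, l3⟩ := hlev j hj
        rcases lt_trichotomy j w.length with h2 | h2 | h2
        · have := l1 h0 h2
          omega
        · have h4 : ep 0 (c.take j) = (-x, x) := by
            rw [h2, hc, glue_take_left _ le_rfl, List.take_length, hw.2.1]
          rw [h4, Prod.ext_iff] at he
          simp only at he
          omega
        · have := l3 h2
          omega
    have e0 := wind_flow_closed c hS.1 (((k : ℤ) + 1), -(k : ℤ) - 1) 0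
    have e1 := wind_flow_closed c hS.1 (((k : ℤ) + 1), -(k : ℤ) - 1) 1
    rw [flow_zero c hS.1 _ hv] at e0 e1
    simp only [Q, Fin.isValue, zero_add, Matrix.cons_val_zero, Matrix.cons_val_one,
      Matrix.cons_val, add_sub_cancel_right, Fin.reduceAdd] at e0 e1
    push_cast
    have h5 : (-((k : ℤ) + 1) - 1) = (-(k : ℤ) - 1 - 1) := by ring
    rw [h5]
    linarith
  have hall : ∀ k : ℕ, wind 0 c ((0 : ℤ), -1) = wind 0 c ((k : ℤ), -(k : ℤ) - 1) := by
    intro k
    induction k with
    | zero => simp
    | succ k ih => rw [ih, hstep k]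
  have hR : wind 0 c ((0 : ℤ), -1) = 0 := by
    rw [hall c.length]
    exact wind_far c _ (by simp)
  -- the left value is one
  have hl1 : wind 0 c (Q 0 (c.getD 0 0)) = 1 := by
    have hr := right_const c hS h3 0 (by omega)
    rw [List.take_zero, ep_nil] at hr
    rcases hup with h | h
    · rw [h] at hr ⊢
      have h6 : Q 0 (0 + 3) = ((0 : ℤ), (-1 : ℤ)) := by simp [Q]
      rw [h6, hR] at hr
      linarith
    · rw [h] at hr ⊢
      have h6 : Q 0 (1 + 3) = Q 0 0 := rfl
      rw [h6] at hr
      have h7 := wind_flow_closed c hS.1 0 0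
      have h8 : Q 0 (0 + 3) = ((0 : ℤ), (-1 : ℤ)) := by simp [Q]
      rw [h8, hR] at h7
      have h9 : flow 0 c 0 0 = 0 := by
        rw [flow_sum]
        apply sum_eq_zero
        intro k hk
        rw [mem_range] at hk
        unfold fstep
        rw [if_neg, if_neg]
        · norm_num
        · rintro ⟨h10, h11⟩
          have h12 : ep 0 (c.take (k + 1)) = 0 := by
            rw [vertex_succ c k hk, h10, h11]
            simp [dv]
          have h13 : L c k = 1 := by
            unfold L
            rw [h10]
            simp [lev, dv]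
          obtain ⟨l1, l2, l3⟩ := hlev k hk
          have h14 : k ≠ 0 := by
            rintro rfl
            rw [L_zero] at h13
            omega
          rcases lt_trichotomy k w.length with h2 | h2 | h2
          · obtain ⟨m1, m2, m3⟩ := hlev (k + 1) (by omega)
            rcases lt_or_eq_of_le (Nat.succ_le_of_lt h2) with h15 | h15
            · have := m1 (by omega) h15
              unfold L at this
              rw [h12, lev_zero] at this
              omega
            · have h16 : ep 0 (c.take (k + 1)) = (-x, x) := by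
                rw [show k + 1 = w.length from h15, hc, glue_take_left _ le_rfl,
                  List.take_length, hw.2.1]
              rw [h12, Prod.ext_iff] at h16
              simp only [Prod.fst_zero, Prod.snd_zero] at h16
              omega
          · have := l2 h2
            omega
          · have := l3 h2
            omega
        · rintro ⟨h10, h11⟩
          have h12 : k = 0 := vertex_inj c hS k 0 hk (by omega) (by simpa using h10)
          subst h12
          rw [h] at h11
          revert h11
          decide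
      rw [h9] at h7
      linarith
  set M := c.length + 2 with hM
  have hsum : ∑ f ∈ Box M, wind 0 c f = xdy 0 c := by
    rw [sum_wind M c 0, hS.1]
    · simp
    · intro j hj
      have := vertex_bound c j hj.le
      rw [hM]; push_cast
      omega
  have hdbl : dbl 0 c = 2 * xdy 0 c := by
    rw [dbl_eq_xdy, hS.1]; simp
  have hnn : ∀ f, 0 ≤ wind 0 c f := by
    intro f
    rcases wind_range c hS h3 f with h | h | h
    · omega
    · rw [h, hl1]; norm_num
    · rw [h, hl1]; norm_num
  have hmem : Q 0 (c.getD 0 0) ∈ Box M := by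
    have h1 : (1 : ℤ) < M := by rw [hM]; push_cast; omega
    rw [Box, mem_product, mem_Ico, mem_Ico]
    rcases hup with h | h
    · rw [h]; simp only [Q, Matrix.cons_val_zero, Prod.fst_zero, Prod.snd_zero]; omega
    · rw [h]
      simp only [Q, Fin.isValue, Matrix.cons_val_one, Matrix.cons_val_zero, Prod.fst_zero,
        Prod.snd_zero]
      omega
  have hge : 1 ≤ ∑ f ∈ Box M, wind 0 c f := by
    rw [← hl1]
    exact single_le_sum (fun f _ => hnn f) hmem
  rw [hsum] at hge
  rw [hdbl]
  omega

end Pool.Agent.SapR.H58
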