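import Pool.Agent.Lib_helper58.SapR.Rot
import Pool.Agent.Lib_helper27.Bounds

/-! Existence and uniqueness of the canonical root. -/

set_option autoImplicit false

namespace Pool.Agent.SapR.H58

open Finset Pool.Agent.Lib27

/-- level at time `j` -/
def L (s : List (Fin 4)) (j : ℕ) : ℤ := lev (ep 0 (s.take j))

lemma lev_dv (a : Fin 4) : lev (dv a) = if a = 0 ∨ a = 1 then 1 else -1 := by
  revert a; decide

lemma lev_dv_up {a : Fin 4} (h : a = 0 ∨ a = 1) : lev (dv a) = 1 := by
  rw [lev_dv, if_pos h]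

lemma lev_dv_down {a : Fin 4} (h : ¬ (a = 0 ∨ a = 1)) : lev (dv a) = -1 := by
  rw [lev_dv, if_neg h]

@[simp] lemma L_zero (s : List (Fin 4)) : L s 0 = 0 := by simp [L]

lemma L_succ (s : List (Fin 4)) (j : ℕ) (hj : j < s.length) :
    L s (j + 1) = L s j + lev (dv (s.getD j 0)) := by
  unfold L
  rw [vertex_succ s j hj, lev_add]

lemma L_length (s : List (Fin 4)) (h : ep 0 s = 0) : L s s.length = 0 := by
  unfold L
  rw [List.take_length, h, lev_zero]

lemma vs_eq_map (s : List (Fin 4)) :
    vs 0 s = (List.range s.length).map (fun j => ep 0 (s.take j)) := by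
  apply List.ext_getElem
  · simp
  · intro j h1 h2
    rw [vs_getElem]
    simp

lemma countP_range (N : ℕ) (p : ℕ → Prop) [DecidablePred p] :
    (List.range N).countP (fun j => decide (p j)) = ((range N).filter p).card := by
  rw [List.countP_eq_length_filter]
  rfl

lemma cnt_eq (s : List (Fin 4)) (h : ℤ) :
    cnt (vs 0 s) h = ((range s.length).filter (fun j => L s j = h)).card := by
  unfold cnt
  rw [vs_eq_map, List.countP_map, ← countP_range]
  rfl

lemma cntI_eq (s : List (Fin 4)) (a b : ℤ) :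
    cntI (vs 0 s) a b = ((range s.length).filter (fun j => a ≤ L s j ∧ L s j ≤ b)).card := by
  unfold cntI
  rw [vs_eq_map, List.countP_map, ← countP_range]
  rfl

/-- cyclic level function -/
def Kc (s : List (Fin 4)) (j : ℕ) : ℤ := L s (j % s.length)

lemma Kc_succ (s : List (Fin 4)) (hs : ep 0 s = 0) (h0 : 0 < s.length) (j : ℕ) :
    Kc s (j + 1) = Kc s j + lev (dv (s.getD (j % s.length) 0)) := by
  unfold Kc
  have hi : j % s.length < s.length := Nat.mod_lt _ h0
  rw [← L_succ s _ hi]
  by_cases h : j % s.length + 1 < s.length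
  · rw [Nat.add_mod, Nat.mod_eq_of_lt (a := j % s.length + 1 % s.length)]
    · rw [Nat.mod_eq_of_lt (a := 1)]
      omega
    · rw [Nat.mod_eq_of_lt (a := 1)] <;> omega
  · have h1 : j % s.length + 1 = s.length := by omega
    rw [h1, L_length s hs]
    have h2 : (j + 1) % s.length = 0 := by
      rw [← Nat.mod_add_mod, h1, Nat.mod_self]
    rw [h2, L_zero]

lemma up_exists (s : List (Fin 4)) (hs : ep 0 s = 0) (h : ℤ) (a b : ℕ) (ha : a < s.length)
    (hb : b < s.length) (h1 : L s a ≤ h) (h2 : h + 1 ≤ L s b) :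
    ∃ j, j < s.length ∧ L s j = h ∧ (s.getD j 0 = 0 ∨ s.getD j 0 = 1) := by
  by_contra hcon
  push Not at hcon
  have h0 : 0 < s.length := by omega
  have key : ∀ k, Kc s (a + k) ≤ h := by
    intro k
    induction k with
    | zero =>
      unfold Kc
      rw [add_zero, Nat.mod_eq_of_lt ha]
      exact h1
    | succ k ih =>
      rw [← add_assoc, Kc_succ s hs h0]
      by_cases hu : s.getD ((a + k) % s.length) 0 = 0 ∨ s.getD ((a + k) % s.length) 0 = 1
      · rw [lev_dv_up hu]
        by_contra hlt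
        have he : Kc s (a + k) = h := by omega
        have := hcon _ (Nat.mod_lt _ h0) he
        tauto
      · rw [lev_dv_down hu]
        omega
  have := key (s.length - a + b)
  unfold Kc at this
  have h3 : (a + (s.length - a + b)) % s.length = b := by
    have : a + (s.length - a + b) = b + s.length := by omega
    rw [this, Nat.add_mod_right, Nat.mod_eq_of_lt hb]
  rw [h3] at this
  omega

lemma down_exists (s : List (Fin 4)) (hs : ep 0 s = 0) (h : ℤ) (a b : ℕ) (ha : a < s.length)
    (hb : b < s.length) (h1 : h ≤ L s a) (h2 : L s b ≤ h - 1) :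
    ∃ j, j < s.length ∧ L s j = h ∧ ¬ (s.getD j 0 = 0 ∨ s.getD j 0 = 1) := by
  by_contra hcon
  push Not at hcon
  have h0 : 0 < s.length := by omega
  have key : ∀ k, h ≤ Kc s (a + k) := by
    intro k
    induction k with
    | zero =>
      unfold Kc
      rw [add_zero, Nat.mod_eq_of_lt ha]
      exact h1
    | succ k ih =>
      rw [← add_assoc, Kc_succ s hs h0]
      by_cases hu : s.getD ((a + k) % s.length) 0 = 0 ∨ s.getD ((a + k) % s.length) 0 = 1
      · rw [lev_dv_up hu]
        omega
      · rw [lev_dv_down hu]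
        by_contra hlt
        have he : Kc s (a + k) = h := by omega
        have := hcon _ (Nat.mod_lt _ h0) he
        tauto
  have := key (s.length - a + b)
  unfold Kc at this
  have h3 : (a + (s.length - a + b)) % s.length = b := by
    have : a + (s.length - a + b) = b + s.length := by omega
    rw [this, Nat.add_mod_right, Nat.mod_eq_of_lt hb]
  rw [h3] at this
  omega

lemma exists_of_cnt_pos (s : List (Fin 4)) (h : ℤ) (hc : 0 < cnt (vs 0 s) h) :
    ∃ j, j < s.length ∧ L s j = h := by
  rw [cnt_eq, card_pos] at hc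
  obtain ⟨j, hj⟩ := hc
  rw [mem_filter, mem_range] at hj
  exact ⟨j, hj⟩

lemma cnt_pos_of (s : List (Fin 4)) (j : ℕ) (hj : j < s.length) : 0 < cnt (vs 0 s) (L s j) := by
  rw [cnt_eq, card_pos]
  exact ⟨j, by rw [mem_filter, mem_range]; exact ⟨hj, rfl⟩⟩

/-- the two crossings of a cut diagonal -/
lemma cut_cross (s : List (Fin 4)) (hs : ep 0 s = 0) (h : ℤ) (hc : Cut (vs 0 s) h) :
    ∃ i j, i < s.length ∧ j < s.length ∧ L s i = h ∧ L s j = h ∧
      (s.getD i 0 = 0 ∨ s.getD i 0 = 1) ∧ ¬ (s.getD j 0 = 0 ∨ s.getD j 0 = 1) ∧ i ≠ j ∧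
      ∀ k, k < s.length → L s k = h → k = i ∨ k = j := by
  obtain ⟨h1, h2, h3⟩ := hc
  obtain ⟨a, ha, hLa⟩ := exists_of_cnt_pos s _ h2
  obtain ⟨b, hb, hLb⟩ := exists_of_cnt_pos s _ h3
  obtain ⟨i, hi, hLi, hui⟩ := up_exists s hs h a b ha hb (by omega) (by omega)
  obtain ⟨j, hj, hLj, huj⟩ := down_exists s hs h b a hb ha (by omega) (by omega)
  have hij : i ≠ j := by
    rintro rfl
    exact huj hui
  refine ⟨i, j, hi, hj, hLi, hLj, hui, huj, hij, ?_⟩
  intro k hk hLk
  by_contra hne
  push Not at hne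
  rw [cnt_eq] at h1
  have hsub : ({k, i, j} : Finset ℕ) ⊆ (range s.length).filter (fun j => L s j = h) := by
    intro x hx
    simp only [mem_insert, mem_singleton] at hx
    rw [mem_filter, mem_range]
    rcases hx with rfl | rfl | rfl
    · exact ⟨hk, hLk⟩
    · exact ⟨hi, hLi⟩
    · exact ⟨hj, hLj⟩
  have h3 : ({k, i, j} : Finset ℕ).card = 3 := by
    rw [card_insert_of_notMem, card_insert_of_notMem, card_singleton]
    · simpa using hij
    · simp only [mem_insert, mem_singleton, not_or]
      exact hne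
  have := card_le_card hsub
  omega

lemma L_bound (s : List (Fin 4)) (j : ℕ) (hj : j ≤ s.length) :
    -(2 * s.length : ℤ) ≤ L s j ∧ L s j ≤ 2 * s.length := by
  have := vertex_bound s j hj
  unfold L lev
  omega

/-- the lowest cut diagonal -/
lemma exists_lowest (r : ℕ) (s : List (Fin 4)) (hr : r < s.length) (h : ShortRuns r (vs 0 s)) :
    ∃ k, Cut (vs 0 s) k ∧ ∀ m, m < k → ¬ Cut (vs 0 s) m := by
  have hex : ∃ k, Cut (vs 0 s) k := by
    by_contra hcon
    push Not at hcon
    have := h (-(2 * s.length : ℤ)) (2 * s.length) (fun k _ _ => hcon k)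
    rw [cntI_eq, filter_true_of_mem, card_range] at this
    · omega
    · intro j hj
      rw [mem_range] at hj
      exact L_bound s j hj.le
  obtain ⟨k, hk, hmin⟩ := Int.exists_least_of_bdd (P := fun k => Cut (vs 0 s) k)
    ⟨-(2 * s.length : ℤ), by
      intro z hz
      have h1 : 0 < cnt (vs 0 s) z := by
        have := hz.1
        omega
      obtain ⟨j, hj, hLj⟩ := exists_of_cnt_pos s z h1
      have := (L_bound s j hj.le).1
      omega⟩ hex
  refine ⟨k, hk, ?_⟩
  intro m hm hc
  have := hmin m hc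
  omega

/-- canonical words -/
def Canon (s : List (Fin 4)) : Prop :=
  (s.getD 0 0 = 0 ∨ s.getD 0 0 = 1) ∧ Cut (vs 0 s) 0 ∧ ∀ h : ℤ, h < 0 → ¬ Cut (vs 0 s) h

lemma getD_rotate (s : List (Fin 4)) (j : ℕ) (hj : j < s.length) :
    (s.rotate j).getD 0 0 = s.getD j 0 := by
  have h0 : 0 < s.length := by omega
  rw [List.getD_eq_getElem _ _ (by simpa using h0), List.getD_eq_getElem _ _ hj,
    List.getElem_rotate]
  simp [Nat.mod_eq_of_lt hj]

lemma cut_rotate (s : List (Fin 4)) (hs : ep 0 s = 0) (j : ℕ) (hj : j ≤ s.length) (k : ℤ) :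
    Cut (vs 0 (s.rotate j)) k ↔ Cut (vs 0 s) (k + L s j) := by
  rw [List.rotate_eq_drop_append_take hj, cut_rot _ _ (by rwa [List.take_append_drop]),
    List.take_append_drop]
  rfl

lemma existsUnique_root (r n : ℕ) (hr : r < 2 * n) (s : List (Fin 4)) (h : s ∈ Fam r n) :
    ∃ i, i < 2 * n ∧ Canon (s.rotate i) ∧ ∀ j, j < 2 * n → Canon (s.rotate j) → j = i := by
  rw [mem_Fam] at h
  obtain ⟨⟨hl, hS⟩, hR⟩ := h
  obtain ⟨k, hk, hmin⟩ := exists_lowest r s (by omega) hR
  obtain ⟨i, j, hi, hj, hLi, hLj, hui, huj, hij, huniq⟩ := cut_cross s hS.1 k hk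
  refine ⟨i, by omega, ⟨?_, ?_, ?_⟩, ?_⟩
  · rw [getD_rotate s i hi]; exact hui
  · rw [cut_rotate s hS.1 i hi.le, zero_add, hLi]; exact hk
  · intro m hm
    rw [cut_rotate s hS.1 i hi.le, hLi]
    exact hmin _ (by omega)
  · intro m hm ⟨c1, c2, c3⟩
    have hm' : m < s.length := by omega
    rw [getD_rotate s m hm'] at c1
    rw [cut_rotate s hS.1 m hm'.le, zero_add] at c2
    have hLm : L s m = k := by
      rcases lt_trichotomy (L s m) k with hlt | heq | hgt
      · exact absurd c2 (hmin _ hlt)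
      · exact heq
      · exfalso
        apply c3 (k - L s m) (by omega)
        rw [cut_rotate s hS.1 m hm'.le]
        simpa using hk
    rcases huniq m hm' hLm with rfl | rfl
    · rfl
    · exact absurd c1 huj

open Classical in
/-- sum over the family = `2n` times the sum over the canonical words -/
lemma sum_canon (r n : ℕ) (hr : r < 2 * n) (G : List (Fin 4) → ℝ)
    (hG : ∀ s ∈ Fam r n, ∀ j, j ≤ 2 * n → G (s.rotate j) = G s) :
    ∑ s ∈ Fam r n, G s = 2 * n * ∑ s ∈ (Fam r n).filter Canon, G s := by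
  have h1 : ∀ s ∈ Fam r n, G s = ∑ j ∈ range (2 * n),
      (if Canon (s.rotate j) then G (s.rotate j) else 0) := by
    intro s hs
    obtain ⟨i, hi, hci, huniq⟩ := existsUnique_root r n hr s hs
    rw [sum_eq_single i]
    · rw [if_pos hci, hG s hs i hi.le]
    · intro j hj hji
      rw [mem_range] at hj
      rw [if_neg]
      intro hc
      exact hji (huniq j hj hc)
    · intro h
      exact absurd (mem_range.2 hi) h
  rw [sum_congr rfl h1, sum_comm]
  have h2 : ∀ j ∈ range (2 * n), ∑ s ∈ Fam r n, (if Canon (s.rotate j) then G (s.rotate j) else 0)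
      = ∑ s ∈ (Fam r n).filter Canon, G s := by
    intro j hj
    rw [mem_range] at hj
    rw [sum_filter]
    refine sum_nbij' (fun s => s.rotate j) (fun s => s.rotate (2 * n - j)) ?_ ?_ ?_ ?_ ?_
    · intro s hs
      exact fam_rotate r n j s hs hj.le
    · intro s hs
      exact fam_rotate r n _ s hs (by omega)
    · intro s hs
      have hl := ((mem_Fam r n s).1 hs).1.1
      simp only [List.rotate_rotate]
      rw [Nat.add_sub_cancel' hj.le, ← hl, List.rotate_length]
    · intro s hs
      have hl := ((mem_Fam r n s).1 hs).1.1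
      simp only [List.rotate_rotate]
      rw [Nat.sub_add_cancel hj.le, ← hl, List.rotate_length]
    · intro s hs
      rfl
  rw [sum_congr rfl h2, sum_const, card_range, nsmul_eq_mul]
  push_cast
  ring

end Pool.Agent.SapR.H58
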